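import Pool.Agent.Helper69.KC.Asm
import Pool.Agent.Helper17.KC.B3M

/-!
Disproof of the conjecture of problem MP_ec852d_co: there are a graph and two Kuratowski edges of
it that are never crossing-critical at the same time, whatever the multiplicities of the edges.
-/

set_option autoImplicit false

namespace Pool.Agent.Results.MP_ec852d_co.NotSimultaneous

open Pool.Agent.Helper69.KC

/-- There is a graph with 12 vertices and 20 edges that has two different Kuratowski edges
`e`, `f` such that, however the edges are multiplied, no copy of `e` and no copy of `f` are both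
crossing-critical in the resulting graph. -/
theorem result : ∃ (G : MGraph (Fin 12) (Fin 20)) (e f : Fin 20),
    e ≠ f ∧ G.KuratowskiEdge e ∧ G.KuratowskiEdge f ∧
    ∀ m : Fin 20 → ℕ, (∀ g, 1 ≤ m g) → ∀ (i : Fin (m e)) (j : Fin (m f)),
      ¬ ((G.multiply m).CrossingCritical ⟨e, i⟩ ∧ (G.multiply m).CrossingCritical ⟨f, j⟩) :=
  main_of main_case_13

end Pool.Agent.Results.MP_ec852d_co.NotSimultaneous
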